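import Pool.Agent.J4.H93.D3.Main2

/-!
# MP_743703_an: the minimisers of the Riesz energy of `d+3` points on `S^d` for large exponents
-/

set_option autoImplicit false

open Filter Topology

namespace Pool.Agent.Results.MP_743703_an.LimitShape

open Pool.Agent.J4.H93.D3

/-- `d+3` points on the unit sphere of `ℝ^(d+1)`, `riesz s x` is the energy over ordered pairs.
For every `d ≥ 2` and `ε > 0` there is `S` such that for all `s ≥ S`: minimisers exist; every
minimiser `x` has energy `2^(-s/2) (8 + (16(d-1) + O(ε)) (log s)²/s)` and is, up to `ε`, of the form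
`{±e₁, ±e₂, e₃, …, e_(d+1)}` for an orthonormal basis; all pairs of points except the four pairs
between `{±e₁}` and `{±e₂}` are at distance `> √2` and contribute together at most `ε` to
`2^(s/2) E_s`. No configuration is a minimiser for arbitrarily large `s`. -/
theorem result (d : ℕ) (hd : 2 ≤ d) :
    (∀ ε : ℝ, 0 < ε → ∃ S : ℝ, 0 < S ∧ ∀ s : ℝ, S ≤ s → (∃ x, IsMin d s x) ∧
      ∀ x, IsMin d s x →
        |2 ^ (s / 2) * riesz s x - 8 - 16 * ((d : ℝ) - 1) * (Real.log s) ^ 2 / s| ≤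
          ε * (Real.log s) ^ 2 / s ∧
        ∃ i i' j j' : Fin (d + 3), Shape d i i' j j' ε x ∧ sig i i' j j' x ≤ ε ∧
          2 ^ (s / 2) * rest i i' j j' s x ≤ ε ∧
          ∀ k l, k ≠ l → ¬ Four i i' j j' k l → Real.sqrt 2 < ‖x k - x l‖) ∧
    (∀ x, ∃ S : ℝ, ∀ s, S ≤ s → ¬ IsMin d s x) := by
  refine ⟨fun ε hε => ?_, fun x => cor d hd x⟩
  obtain ⟨S, hS, h⟩ := main2 (t_LOWZ t_KER t_ZZ t_PT t_MM) (t_TAU t_KER t_ZZ t_PT str2)
    (t_FIN2b t_PT t_CFG2b) t_ORT d hd ε hε
  exact ⟨S, hS, fun s hs => ⟨t_EXIb t_CFG d (by omega) s (lt_of_lt_of_le hS hs), h s hs⟩⟩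

end Pool.Agent.Results.MP_743703_an.LimitShape
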